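import Mathlib
import Pool.Agent.Helper131.CG.Defs
import Pool.Agent.Helper131.CG.Defs2
import Pool.Agent.Helper131.CG.Open

set_option autoImplicit false

namespace Pool.Agent.Results.MP_35454f_gt.VariableCurvature

open Pool.Agent.Helper131.CG
open scoped ContDiff

/-- Let `M = Γ \ UH` be a closed surface of genus `≥ 2`.

(1) Let `m |dz|²` be any metric on `M`, of Gauss curvature `K`, for which there are a number `lam`
and a vector field `X` with `div X = 2 (K + lam)` and `lam |v|² + ⟨∇_v X, v⟩ > 0` for `v ≠ 0`. Then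
every geodesic of the group of area preserving diffeomorphisms of `M` (right invariant `L²` metric)
which returns to its initial position at some time `T > 0` is constant.

(2) There is a `C⁴`-neighbourhood of `0` in the space of smooth functions `F` on `M` such that for
all `F` in it, `g_F = (1 + (1/2) Δ F) |dz|²/y²` (`Δ` the hyperbolic Laplacian) is a metric on `M`
with the same property. -/
theorem result (Γ : Subgroup SL2R) (hΓ : SurfaceGroup Γ) :
    (∀ (m : ℂ → ℝ) (lam : ℝ) (X : ℂ → ℂ), ConfMetric Γ m → VirialField Γ m lam X →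
      ∀ η : ℝ → ℂ → ℂ, IsGeodesic Γ m η → ∀ T : ℝ, 0 < T →
        (∀ z ∈ UH, ∃ g ∈ Γ, η T z = mob g (η 0 z)) → ∀ t, ∀ z ∈ UH, η t z = η 0 z) ∧
    (∀ K : Set ℂ, IsCompact K → K ⊆ UH → (∀ z ∈ UH, ∃ g ∈ Γ, mob g z ∈ K) →
      ∃ δ : ℝ, 0 < δ ∧ ∀ F : ℂ → ℝ, ContDiffOn ℝ ∞ F UH →
        (∀ g ∈ Γ, ∀ z ∈ UH, F (mob g z) = F z) →
        (∀ z ∈ K, ∀ n : ℕ, n ≤ 4 → ‖iteratedFDeriv ℝ n F z‖ ≤ δ) →
        ConfMetric Γ (mF F 1) ∧
        ∀ η : ℝ → ℂ → ℂ, IsGeodesic Γ (mF F 1) η → ∀ T : ℝ, 0 < T →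
          (∀ z ∈ UH, ∃ g ∈ Γ, η T z = mob g (η 0 z)) → ∀ t, ∀ z ∈ UH, η t z = η 0 z) :=
  ⟨fun _ _ _ hm hX _ hη _ hT hret => gen_no_closed hΓ hm hX hη hT hret,
    fun _ hK hKU hcov => near_hyp_open hΓ hK hKU hcov⟩

end Pool.Agent.Results.MP_35454f_gt.VariableCurvature
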